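import Pool.Agent.Run7.h566.MF.CallsExp

/-!
# The number of calls of a routine for matrices of smaller format

`Alg 𝕜 p q s a b c k`: `p × q` by `q × s` matrices over `𝕜` can be multiplied with `k` multiplications
of an `a × b` by a `b × c` matrix and linear maps; `calls 𝕜 p q s a b c` is the least such `k`;
`sz x n = ⌈n ^ x⌉`; `growth f` is the infimum of the `τ` with `f n ≤ C n ^ τ` for all `n ≥ 1`.

The bound from below: if `⟨P,Q,S⟩` needs only `k` calls of format `⟨a,b,c⟩`, then the same holds for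
`⟨p a, q b, s c⟩` with `p = ⌊P/a⌋`, `q = ⌊Q/b⌋`, `s = ⌊S/c⌋`; such algorithms can be composed, the
outer one being applied to the first coordinates only, so that `k ^ N` calls of the same format
`⟨a,b,c⟩` suffice for `⟨p ^ N a, q ^ N b, s ^ N c⟩`.  So the rank of `⟨p ^ N, q ^ N, s ^ N⟩` is at most
`k ^ N a b c`.
-/

set_option autoImplicit false

namespace Pool.Agent.Run7.h566.MF.BlockCallsR

open Pool.Agent.Run7.h566.MF

/-- **The exponent of the number of calls.** Let `0 ≤ x ≤ u`, `0 ≤ y ≤ v`, `0 ≤ z ≤ w`. The least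
number of multiplications of a `⌈n^x⌉ × ⌈n^y⌉` by a `⌈n^y⌉ × ⌈n^z⌉` matrix which suffice, together
with arbitrary linear maps, to multiply `⌈n^u⌉ × ⌈n^v⌉` by `⌈n^v⌉ × ⌈n^w⌉` matrices has the same
exponent of growth as the rank (the number of multiplications of numbers) for the multiplication of
`⌈n^(u-x)⌉ × ⌈n^(v-y)⌉` by `⌈n^(v-y)⌉ × ⌈n^(w-z)⌉` matrices. -/
theorem result (𝕜 : Type) [Field 𝕜] {u v w x y z : ℝ} (hx : 0 ≤ x) (hxu : x ≤ u) (hy : 0 ≤ y)
    (hyv : y ≤ v) (hz : 0 ≤ z) (hzw : z ≤ w) :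
    growth (fun n => calls 𝕜 (sz u n) (sz v n) (sz w n) (sz x n) (sz y n) (sz z n)) =
      growth (fun n => calls 𝕜 (sz (u - x) n) (sz (v - y) n) (sz (w - z) n) 1 1 1) :=
  growth_calls 𝕜 hx hxu hy hyv hz hzw

end Pool.Agent.Run7.h566.MF.BlockCallsR
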