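import Pool.Agent.Run7.h566.MF.Num
import Pool.Agent.Run7.h566.MF.Lin

/-!
# The number of calls 𝕜 of a multiplication routine (helper566)
-/

set_option autoImplicit false

namespace Pool.Agent.Run7.h566.MF

open Finset

variable {𝕜 : Type*} [Field 𝕜]

/-- `p × q` by `q × s` matrices can be multiplied with `k` multiplications of an `a × b` by a
`b × c` matrix: these are applied to matrices whose entries are arbitrary linear combinations of the
entries of the left and of the right factor, and the entries of the product are linear combinations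
of the entries of the results. -/
def Alg (𝕜 : Type*) [Field 𝕜] (p q s a b c k : ℕ) : Prop :=
  ∃ (F : Fin k → Matrix (Fin p) (Fin q) 𝕜 →ₗ[𝕜] Matrix (Fin a) (Fin b) 𝕜)
    (G : Fin k → Matrix (Fin q) (Fin s) 𝕜 →ₗ[𝕜] Matrix (Fin b) (Fin c) 𝕜)
    (H : Fin k → Matrix (Fin a) (Fin c) 𝕜 →ₗ[𝕜] Matrix (Fin p) (Fin s) 𝕜),
    ∀ (A : Matrix (Fin p) (Fin q) 𝕜) (B : Matrix (Fin q) (Fin s) 𝕜),
      A * B = ∑ u, H u (F u A * G u B)

lemma U_of_Alg {p q s a b c k : ℕ} (h : Alg 𝕜 p q s a b c k) : U 𝕜 p q s a b c k := by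
  classical
  obtain ⟨F, G, H, h⟩ := h
  refine ⟨fun u x y i j => F u (Matrix.single i j 1) x y, fun u y z j k => G u (Matrix.single j k 1) y z,
    fun u z x k l => H u (Matrix.single x z 1) l k, fun i l j j' k k' => ?_⟩
  have h1 := congrFun (congrFun (h (Matrix.single i j 1) (Matrix.single j' k 1)) l) k'
  rw [unit_mul] at h1
  rw [h1, Matrix.sum_apply]
  refine Finset.sum_congr rfl fun u _ => ?_
  have h2 : F u (Matrix.single i j 1) * G u (Matrix.single j' k 1) =
      ∑ x, ∑ z, (∑ y, F u (Matrix.single i j 1) x y * G u (Matrix.single j' k 1) y z) •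
        Matrix.single x z (1 : 𝕜) := by
    conv_lhs => rw [Matrix.matrix_eq_sum_single (F u (Matrix.single i j 1) * G u (Matrix.single j' k 1))]
    refine Finset.sum_congr rfl fun x _ => Finset.sum_congr rfl fun z _ => ?_
    rw [Matrix.smul_single, smul_eq_mul, mul_one, Matrix.mul_apply]
  rw [h2]
  simp only [map_sum, map_smul, Matrix.sum_apply, Matrix.smul_apply, smul_eq_mul, Finset.sum_mul]
  refine Finset.sum_congr rfl fun x _ => ?_
  rw [Finset.sum_comm]

/-- The linear map with given coefficients. -/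
def coefMap {X Y I J : Type} [Fintype I] [Fintype J] (α : X → Y → I → J → 𝕜) :
    Matrix I J 𝕜 →ₗ[𝕜] Matrix X Y 𝕜 where
  toFun := fun A => Matrix.of fun x y => ∑ i, ∑ j, α x y i j * A i j
  map_add' := fun A A' => by
    ext x y
    simp only [Matrix.of_apply, Matrix.add_apply, mul_add, Finset.sum_add_distrib]
  map_smul' := fun t A => by
    ext x y
    simp only [Matrix.of_apply, Matrix.smul_apply, smul_eq_mul, RingHom.id_apply,
      Finset.mul_sum]
    refine Finset.sum_congr rfl fun i _ => Finset.sum_congr rfl fun j _ => by ring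

lemma coefMap_apply {X Y I J : Type} [Fintype I] [Fintype J] (α : X → Y → I → J → 𝕜)
    (A : Matrix I J 𝕜) (x : X) (y : Y) : coefMap α A x y = ∑ i, ∑ j, α x y i j * A i j := rfl

lemma coefMap_single {X Y I J : Type} [Fintype I] [Fintype J] [DecidableEq I] [DecidableEq J]
    (α : X → Y → I → J → 𝕜) (i : I) (j : J) (x : X) (y : Y) :
    coefMap α (Matrix.single i j (1 : 𝕜)) x y = α x y i j := by
  rw [coefMap_apply, Finset.sum_eq_single i, Finset.sum_eq_single j]
  · simp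
  · intro j' _ hj
    simp [hj.symm]
  · simp
  · intro i' _ hi
    refine Finset.sum_eq_zero fun j' _ => ?_
    simp [hi.symm]
  · simp

lemma Alg_of_U {p q s a b c k : ℕ} (h : U 𝕜 p q s a b c k) : Alg 𝕜 p q s a b c k := by
  classical
  obtain ⟨α, β, γ, h⟩ := h
  refine ⟨fun u => coefMap (α u), fun u => coefMap (β u),
    fun u => coefMap (fun l k x z => γ u z x k l), ?_⟩
  let L1 : Matrix (Fin p) (Fin q) 𝕜 →ₗ[𝕜] Matrix (Fin q) (Fin s) 𝕜 →ₗ[𝕜] Matrix (Fin p) (Fin s) 𝕜 :=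
    LinearMap.mk₂ 𝕜 (fun A B => A * B) Matrix.add_mul (fun t A B => Matrix.smul_mul t A B)
      Matrix.mul_add (fun t A B => Matrix.mul_smul A t B)
  let L2 : Matrix (Fin p) (Fin q) 𝕜 →ₗ[𝕜] Matrix (Fin q) (Fin s) 𝕜 →ₗ[𝕜] Matrix (Fin p) (Fin s) 𝕜 :=
    LinearMap.mk₂ 𝕜 (fun A B => ∑ u : Fin k, coefMap (fun l k x z => γ u z x k l)
        (coefMap (α u) A * coefMap (β u) B))
      (fun A A' B => by simp only [map_add, Matrix.add_mul, Finset.sum_add_distrib])
      (fun t A B => by simp only [map_smul, Matrix.smul_mul, Finset.smul_sum])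
      (fun A B B' => by simp only [map_add, Matrix.mul_add, Finset.sum_add_distrib])
      (fun t A B => by simp only [map_smul, Matrix.mul_smul, Finset.smul_sum])
  have hL : L1 = L2 := by
    refine Matrix.ext_linearMap 𝕜 fun i j => ?_
    refine LinearMap.ext_ring ?_
    refine Matrix.ext_linearMap 𝕜 fun j' k => ?_
    refine LinearMap.ext_ring ?_
    ext l k'
    show (Matrix.single i j (1 : 𝕜) * Matrix.single j' k (1 : 𝕜)) l k' =
      (∑ u, coefMap (fun l k x z => γ u z x k l)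
        (coefMap (α u) (Matrix.single i j (1 : 𝕜)) * coefMap (β u) (Matrix.single j' k (1 : 𝕜)))) l k'
    rw [unit_mul, h, Matrix.sum_apply]
    refine Finset.sum_congr rfl fun u _ => ?_
    rw [coefMap_apply]
    refine Finset.sum_congr rfl fun x _ => ?_
    rw [Finset.sum_comm]
    refine Finset.sum_congr rfl fun z _ => ?_
    rw [Matrix.mul_apply, Finset.mul_sum]
    refine Finset.sum_congr rfl fun y _ => ?_
    rw [coefMap_single, coefMap_single]
    ring
  intro A B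
  exact congrFun (congrArg DFunLike.coe (congrFun (congrArg DFunLike.coe hL) A)) B

lemma Alg_iff {p q s a b c k : ℕ} : Alg 𝕜 p q s a b c k ↔ U 𝕜 p q s a b c k :=
  ⟨U_of_Alg, Alg_of_U⟩

/-- The least number of calls. -/
noncomputable def calls (𝕜 : Type*) [Field 𝕜] (p q s a b c : ℕ) : ℕ := sInf {k : ℕ | Alg 𝕜 p q s a b c k}

lemma U_trivial (p q s a b c : ℕ) (ha : 1 ≤ a) (hb : 1 ≤ b) (hc : 1 ≤ c) :
    U 𝕜 p q s a b c (p * q * s) :=
  ((R.triv p q s).units a b c).mono (Nat.le_mul_of_pos_right _ ha) (Nat.le_mul_of_pos_right _ hb)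
    (Nat.le_mul_of_pos_right _ hc) le_rfl

lemma U_calls {p q s a b c : ℕ} (ha : 1 ≤ a) (hb : 1 ≤ b) (hc : 1 ≤ c) :
    U 𝕜 p q s a b c (calls 𝕜 p q s a b c) :=
  Alg_iff.mp (Nat.sInf_mem (s := {k : ℕ | Alg 𝕜 p q s a b c k})
    ⟨_, Alg_iff.mpr (U_trivial p q s a b c ha hb hc)⟩)

lemma calls_le {p q s a b c k : ℕ} (h : U 𝕜 p q s a b c k) : calls 𝕜 p q s a b c ≤ k :=
  Nat.sInf_le (Alg_iff.mpr h)

lemma R_iff_U {p q s k : ℕ} : R 𝕜 p q s k ↔ U 𝕜 p q s 1 1 1 k := by
  constructor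
  · intro h
    simpa using h.units 1 1 1
  · intro h
    simpa using h.rank (R.triv 1 1 1)

lemma R_calls (p q s : ℕ) : R 𝕜 p q s (calls 𝕜 p q s 1 1 1) :=
  R_iff_U.mpr (U_calls le_rfl le_rfl le_rfl)

lemma calls_le_of_R {p q s k : ℕ} (h : R 𝕜 p q s k) : calls 𝕜 p q s 1 1 1 ≤ k :=
  calls_le (R_iff_U.mp h)

lemma one_le_calls {p q s a b c : ℕ} (hp : 1 ≤ p) (hq : 1 ≤ q) (hs : 1 ≤ s) (ha : 1 ≤ a)
    (hb : 1 ≤ b) (hc : 1 ≤ c) : 1 ≤ calls 𝕜 p q s a b c :=
  (U_calls ha hb hc).one_le hp hq hs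

lemma calls_le_mul {p q s a b c p' q' s' : ℕ} (hp : p ≤ p' * a) (hq : q ≤ q' * b)
    (hs : s ≤ s' * c) : calls 𝕜 p q s a b c ≤ calls 𝕜 p' q' s' 1 1 1 :=
  calls_le (((R_calls p' q' s').units a b c).mono hp hq hs le_rfl)

end Pool.Agent.Run7.h566.MF
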