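import Pool.Agent.Run7.h566.MF.Calls

/-!
# The exponent of the number of calls 𝕜 (helper566)
-/

set_option autoImplicit false

namespace Pool.Agent.Run7.h566.MF

open Finset Filter

variable {𝕜 : Type*} [Field 𝕜]

/-- `n ^ x`, rounded up. -/
noncomputable def sz (x : ℝ) (n : ℕ) : ℕ := ⌈(n : ℝ) ^ x⌉₊

/-- The exponent of growth of a sequence. -/
noncomputable def growth (f : ℕ → ℕ) : ℝ :=
  sInf {τ : ℝ | ∃ C : ℝ, ∀ n : ℕ, 1 ≤ n → (f n : ℝ) ≤ C * (n : ℝ) ^ τ}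

lemma growth_set_nonneg {f : ℕ → ℕ} (hf : ∀ n, 1 ≤ n → 1 ≤ f n) {τ : ℝ}
    (h : ∃ C : ℝ, ∀ n : ℕ, 1 ≤ n → (f n : ℝ) ≤ C * (n : ℝ) ^ τ) : 0 ≤ τ := by
  obtain ⟨C, hC⟩ := h
  by_contra hcon
  push Not at hcon
  have t := (tendsto_rpow_neg_atTop (y := -τ) (by linarith)).comp
    (tendsto_natCast_atTop_atTop (R := ℝ))
  have t' := t.const_mul C
  rw [mul_zero] at t'
  have ev := t'.eventually (gt_mem_nhds (show (0 : ℝ) < 1 by norm_num))
  obtain ⟨n, hn1, hn2⟩ := (ev.and (Filter.eventually_ge_atTop 1)).exists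
  have h1 : (1 : ℝ) ≤ f n := by exact_mod_cast hf n hn2
  have h2 := hC n hn2
  simp only [Function.comp, neg_neg] at hn1
  linarith

lemma one_le_sz (x : ℝ) {n : ℕ} (hn : 1 ≤ n) : 1 ≤ sz x n := by
  have h0 : (0 : ℝ) < n := by exact_mod_cast hn
  exact Nat.one_le_iff_ne_zero.mpr (Nat.ceil_pos.mpr (Real.rpow_pos_of_pos h0 x)).ne'

lemma le_sz (x : ℝ) (n : ℕ) : (n : ℝ) ^ x ≤ sz x n := Nat.le_ceil _

lemma sz_le {x : ℝ} (hx : 0 ≤ x) {n : ℕ} (hn : 1 ≤ n) : (sz x n : ℝ) ≤ 2 * (n : ℝ) ^ x := by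
  have h1 : (1 : ℝ) ≤ (n : ℝ) ^ x := Real.one_le_rpow (by exact_mod_cast hn) hx
  have := Nat.ceil_lt_add_one (by linarith : (0 : ℝ) ≤ (n : ℝ) ^ x)
  unfold sz
  linarith

lemma sz_le_mul {u x : ℝ} {n : ℕ} (hn : 1 ≤ n) :
    sz u n ≤ sz (u - x) n * sz x n := by
  have h0 : (0 : ℝ) < n := by exact_mod_cast hn
  refine Nat.ceil_le.mpr ?_
  push_cast
  have h1 : (n : ℝ) ^ u = (n : ℝ) ^ (u - x) * (n : ℝ) ^ x := by
    rw [← Real.rpow_add h0]; congr 1; ring
  rw [h1]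
  exact mul_le_mul (le_sz _ _) (le_sz _ _) (Real.rpow_nonneg h0.le _) (Nat.cast_nonneg _)

/-- The integer quotient of the sizes. -/
lemma quot_ge {u x : ℝ} (hx : 0 ≤ x) (hxu : x ≤ u) {m : ℕ} (hm : 1 ≤ m) :
    (m : ℝ) ^ (u - x) ≤ ((4 * (sz u m / sz x m) : ℕ) : ℝ) := by
  have h0 : (0 : ℝ) < m := by exact_mod_cast hm
  have hm1 : (1 : ℝ) ≤ m := by exact_mod_cast hm
  have ha := one_le_sz x hm
  have hle : sz x m ≤ sz u m := Nat.ceil_mono (Real.rpow_le_rpow_of_exponent_le hm1 hxu)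
  set p := sz u m / sz x m with hp
  have hp1 : 1 ≤ p := (Nat.one_le_div_iff (by omega)).mpr hle
  have h1 : sz u m < sz x m * (p + 1) := Nat.lt_mul_div_succ _ (by omega)
  have h2 : sz u m ≤ sz x m * (2 * p) := h1.le.trans (Nat.mul_le_mul_left _ (by omega))
  have h3 : (m : ℝ) ^ u ≤ 2 * (m : ℝ) ^ x * (2 * p) := by
    calc (m : ℝ) ^ u ≤ sz u m := le_sz _ _
      _ ≤ ((sz x m * (2 * p) : ℕ) : ℝ) := by exact_mod_cast h2
      _ = (sz x m : ℝ) * (2 * p) := by push_cast; ring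
      _ ≤ 2 * (m : ℝ) ^ x * (2 * p) := by
        apply mul_le_mul_of_nonneg_right (sz_le hx hm); positivity
  have h4 : (m : ℝ) ^ u = (m : ℝ) ^ (u - x) * (m : ℝ) ^ x := by
    rw [← Real.rpow_add h0]; congr 1; ring
  have h5 : 0 < (m : ℝ) ^ x := Real.rpow_pos_of_pos h0 _
  rw [h4] at h3
  have h6 : (m : ℝ) ^ (u - x) * (m : ℝ) ^ x ≤ (4 * p) * (m : ℝ) ^ x := by linarith
  have h7 := le_of_mul_le_mul_right h6 h5
  push_cast
  exact h7

lemma sz_le_pow {u x : ℝ} (hx : 0 ≤ x) (hxu : x ≤ u) {m n N : ℕ} (hm : 1 ≤ m)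
    (hn : n ≤ m ^ N) : sz (u - x) n ≤ (4 * (sz u m / sz x m)) ^ N := by
  refine Nat.ceil_le.mpr ?_
  have h0 : (0 : ℝ) < m := by exact_mod_cast hm
  calc (n : ℝ) ^ (u - x) ≤ ((m : ℝ) ^ N) ^ (u - x) := by
        apply Real.rpow_le_rpow (Nat.cast_nonneg n) (by exact_mod_cast hn) (by linarith)
    _ = ((m : ℝ) ^ (u - x)) ^ N := by
        rw [← Real.rpow_natCast (m : ℝ) N, ← Real.rpow_mul h0.le, mul_comm,
          Real.rpow_mul h0.le, Real.rpow_natCast]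
    _ ≤ (((4 * (sz u m / sz x m) : ℕ) : ℝ)) ^ N :=
        pow_le_pow_left₀ (Real.rpow_nonneg h0.le _) (quot_ge hx hxu hm) N
    _ = _ := by push_cast; ring

/-- The rank of the powers of the quotient format. -/
lemma calls_pow {P Q S a b c : ℕ} (ha : 1 ≤ a) (hb : 1 ≤ b) (hc : 1 ≤ c) (N : ℕ) :
    R 𝕜 ((4 * (P / a)) ^ N) ((4 * (Q / b)) ^ N) ((4 * (S / c)) ^ N)
      ((64 * calls 𝕜 P Q S a b c) ^ N * (a * b * c)) := by
  have h1 := (U_calls (𝕜 := 𝕜) (p := P) (q := Q) (s := S) ha hb hc).rank_pow ha hb hc N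
  have h2 := (R.triv (𝕜 := 𝕜) (4 ^ N) (4 ^ N) (4 ^ N)).mul h1
  refine h2.mono ?_ ?_ ?_ ?_
  · rw [mul_pow]
  · rw [mul_pow]
  · rw [mul_pow]
  · rw [mul_pow, show (64 : ℕ) = 4 * 4 * 4 by norm_num, mul_pow, mul_pow]
    apply le_of_eq
    ring

theorem growth_calls (𝕜 : Type*) [Field 𝕜] {u v w x y z : ℝ} (hx : 0 ≤ x) (hxu : x ≤ u) (hy : 0 ≤ y) (hyv : y ≤ v)
    (hz : 0 ≤ z) (hzw : z ≤ w) :
    growth (fun n => calls 𝕜 (sz u n) (sz v n) (sz w n) (sz x n) (sz y n) (sz z n)) =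
      growth (fun n => calls 𝕜 (sz (u - x) n) (sz (v - y) n) (sz (w - z) n) 1 1 1) := by
  set f : ℕ → ℕ := fun n => calls 𝕜 (sz u n) (sz v n) (sz w n) (sz x n) (sz y n) (sz z n) with hf
  set g : ℕ → ℕ := fun n => calls 𝕜 (sz (u - x) n) (sz (v - y) n) (sz (w - z) n) 1 1 1 with hg
  have hf1 : ∀ n, 1 ≤ n → 1 ≤ f n := fun n hn =>
    one_le_calls (one_le_sz _ hn) (one_le_sz _ hn) (one_le_sz _ hn) (one_le_sz _ hn)
      (one_le_sz _ hn) (one_le_sz _ hn)
  have hg1 : ∀ n, 1 ≤ n → 1 ≤ g n := fun n hn =>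
    one_le_calls (one_le_sz _ hn) (one_le_sz _ hn) (one_le_sz _ hn) le_rfl le_rfl le_rfl
  have hfg : ∀ n, 1 ≤ n → f n ≤ g n := fun n hn =>
    calls_le_mul (sz_le_mul hn) (sz_le_mul hn) (sz_le_mul hn)
  have hgne : {τ : ℝ | ∃ C : ℝ, ∀ n : ℕ, 1 ≤ n → (g n : ℝ) ≤ C * (n : ℝ) ^ τ}.Nonempty := by
    refine ⟨(u - x) + (v - y) + (w - z), 8, fun n hn => ?_⟩
    have h0 : (0 : ℝ) < n := by exact_mod_cast hn
    have h1 : g n ≤ sz (u - x) n * sz (v - y) n * sz (w - z) n :=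
      calls_le_of_R (R.triv _ _ _)
    have h2 : (g n : ℝ) ≤ (sz (u - x) n : ℝ) * sz (v - y) n * sz (w - z) n := by
      exact_mod_cast h1
    have hux : (0 : ℝ) ≤ u - x := by linarith
    have hvy : (0 : ℝ) ≤ v - y := by linarith
    have hwz : (0 : ℝ) ≤ w - z := by linarith
    refine h2.trans ?_
    rw [Real.rpow_add h0, Real.rpow_add h0]
    calc (sz (u - x) n : ℝ) * sz (v - y) n * sz (w - z) n ≤
        (2 * (n : ℝ) ^ (u - x)) * (2 * (n : ℝ) ^ (v - y)) * (2 * (n : ℝ) ^ (w - z)) := by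
          gcongr
          · exact sz_le hux hn
          · exact sz_le hvy hn
          · exact sz_le hwz hn
      _ = _ := by ring
  refine le_antisymm ?_ ?_
  · refine csInf_le_csInf ⟨0, fun τ h => growth_set_nonneg hf1 h⟩ hgne ?_
    rintro τ ⟨C, hC⟩
    refine ⟨C, fun n hn => le_trans ?_ (hC n hn)⟩
    exact_mod_cast hfg n hn
  · refine le_csInf ?_ ?_
    · obtain ⟨τ, C, hC⟩ := hgne
      refine ⟨τ, C, fun n hn => le_trans ?_ (hC n hn)⟩
      exact_mod_cast hfg n hn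
    · rintro τ ⟨C, hC⟩
      have hτ0 : 0 ≤ τ := growth_set_nonneg hf1 ⟨C, hC⟩
      have hC1 : 1 ≤ C := by
        have h1 := hC 1 le_rfl
        have h2 : (1 : ℝ) ≤ f 1 := by exact_mod_cast hf1 1 le_rfl
        simp only [Nat.cast_one, Real.one_rpow, mul_one] at h1
        linarith
      refine le_of_forall_pos_le_add fun δ hδ => ?_
      refine csInf_le ⟨0, fun σ h => growth_set_nonneg hg1 h⟩ ?_
      -- the choice of the base
      have t := (tendsto_rpow_atTop hδ).comp (tendsto_natCast_atTop_atTop (R := ℝ))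
      obtain ⟨m, hm1, hm2⟩ := ((t.eventually (eventually_ge_atTop (64 * C))).and
        (eventually_ge_atTop 2)).exists
      simp only [Function.comp] at hm1
      have hm0 : (0 : ℝ) < m := by exact_mod_cast (by omega : 0 < m)
      set a := sz x m with ha
      set b := sz y m with hb
      set c := sz z m with hc
      have ha1 : 1 ≤ a := one_le_sz _ (by omega)
      have hb1 : 1 ≤ b := one_le_sz _ (by omega)
      have hc1 : 1 ≤ c := one_le_sz _ (by omega)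
      refine ⟨((a * b * c : ℕ) : ℝ) * (m : ℝ) ^ (τ + δ), fun n hn => ?_⟩
      set N := Nat.clog m n with hN
      have h1 : n ≤ m ^ N := Nat.le_pow_clog (by omega) n
      have h2 : m ^ N ≤ m * n := by
        rcases Nat.eq_zero_or_pos N with hz | hz
        · rw [hz, pow_zero]
          exact Nat.succ_le_of_lt (Nat.mul_pos (by omega) hn)
        · have hn2 : 1 < n := by
            by_contra hcon
            have : n = 1 := by omega
            rw [this, Nat.clog_one_right] at hN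
            omega
          have := Nat.pow_pred_clog_lt_self (b := m) (by omega) hn2
          rw [← hN] at this
          calc m ^ N = m * m ^ (N - 1) := by
                rw [← pow_succ']; congr 1; omega
            _ ≤ m * n := Nat.mul_le_mul_left _ this.le
      have h3 : g n ≤ (64 * f m) ^ N * (a * b * c) :=
        calls_le_of_R ((calls_pow (P := sz u m) (Q := sz v m) (S := sz w m) ha1 hb1 hc1 N).mono
          (sz_le_pow hx hxu (by omega) h1) (sz_le_pow hy hyv (by omega) h1)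
          (sz_le_pow hz hzw (by omega) h1) le_rfl)
      have h4 : (g n : ℝ) ≤ (64 * (f m : ℝ)) ^ N * ((a * b * c : ℕ) : ℝ) := by exact_mod_cast h3
      have h5 : 64 * (f m : ℝ) ≤ (m : ℝ) ^ (τ + δ) := by
        rw [Real.rpow_add hm0]
        have h6 := hC m (by omega)
        have h7 : 0 < (m : ℝ) ^ τ := Real.rpow_pos_of_pos hm0 _
        calc 64 * (f m : ℝ) ≤ 64 * (C * (m : ℝ) ^ τ) := by linarith
          _ = (m : ℝ) ^ τ * (64 * C) := by ring
          _ ≤ (m : ℝ) ^ τ * (m : ℝ) ^ δ := mul_le_mul_of_nonneg_left hm1 h7.le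
      have h8 : (64 * (f m : ℝ)) ^ N ≤ (m : ℝ) ^ (τ + δ) * (n : ℝ) ^ (τ + δ) := by
        calc (64 * (f m : ℝ)) ^ N ≤ ((m : ℝ) ^ (τ + δ)) ^ N :=
              pow_le_pow_left₀ (by positivity) h5 N
          _ = (((m ^ N : ℕ) : ℝ)) ^ (τ + δ) := by
              push_cast
              rw [← Real.rpow_natCast (m : ℝ) N, ← Real.rpow_mul hm0.le, mul_comm,
                Real.rpow_mul hm0.le, Real.rpow_natCast]
          _ ≤ (((m * n : ℕ) : ℝ)) ^ (τ + δ) := by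
              apply Real.rpow_le_rpow (Nat.cast_nonneg _) (by exact_mod_cast h2) (by linarith)
          _ = _ := by
              push_cast
              rw [Real.mul_rpow hm0.le (Nat.cast_nonneg _)]
      calc (g n : ℝ) ≤ (64 * (f m : ℝ)) ^ N * ((a * b * c : ℕ) : ℝ) := h4
        _ ≤ ((m : ℝ) ^ (τ + δ) * (n : ℝ) ^ (τ + δ)) * ((a * b * c : ℕ) : ℝ) :=
            mul_le_mul_of_nonneg_right h8 (Nat.cast_nonneg _)
        _ = _ := by ring

end Pool.Agent.Run7.h566.MF
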